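import Pool.Agent.Helper28.PP54.UBG

set_option autoImplicit false

/-!
Project PP54, round 2, package CNTG: zeros of `Hx (-τ)` in a window on the scale `V`.
-/

open Complex MeasureTheory Set Filter Topology

namespace Pool.Agent.Helper28.PP54

open Pool.Agent.Helper54.Xm Pool.Agent.Helper54.Hf Pool.Agent.Helper54.Nt Pool.Agent.Helper54.Nm
  Pool.Agent.Helper54.Pp

theorem cntg (hUBG : S_UBG) (hNearV : S_NearV) (hFar : S_Far) : S_CntG := by
  obtain ⟨K, ε1, T1, hK, hε1, hT1, ubg⟩ := hUBG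
  obtain ⟨ε2, Λ, T2, hε2, hΛ, hT2, near⟩ := hNearV
  obtain ⟨T3, hT3, far⟩ := hFar 1 one_pos
  refine ⟨4 * (K + 1), min ε1 ε2, max Λ 8, max T1 (max T2 T3), by linarith, lt_min hε1 hε2,
    hΛ.trans (le_max_left _ _), hT1.trans (le_max_left _ _), ?_⟩
  intro T τ x0 ε V hT hτ hΛT hτV hV3 hε hεε hx1 hx2 hM S hS
  have hTa : T1 ≤ T := (le_max_left _ _).trans hT
  have hTb : T2 ≤ T := (le_max_left _ _).trans ((le_max_right _ _).trans hT)
  have hTc : T3 ≤ T := (le_max_right _ _).trans ((le_max_right _ _).trans hT)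
  have hT1000 : 1000 ≤ T := hT1.trans hTa
  have hL0 : 0 < Real.log T := Real.log_pos (by linarith)
  have hΛ1 : Λ ≤ τ * Real.log T ^ 2 := (le_max_left _ _).trans hΛT
  have hΛ8 : 8 ≤ τ * Real.log T ^ 2 := (le_max_right _ _).trans hΛT
  have he1 : ε ≤ ε1 := hεε.trans (min_le_left _ _)
  have he2 : ε ≤ ε2 := hεε.trans (min_le_right _ _)
  have ubg := ubg T τ x0 ε V hTa hτ hΛ8 hτV hV3 hε he1 hx1 hx2 hM
  have near := near T τ x0 ε V hTb hτ hΛ1 hτV (by linarith) hε he2 hx1 hx2 hM
  set L := Real.log T with hLdef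
  have hs0 : 0 < τ * L := mul_pos hτ hL0
  have V0 : 0 < V := by linarith
  have far := far T τ hTc hτ (by linarith)
  have hVL1 : 1 ≤ V * L := by
    have h1 : τ * L ^ 2 = (τ * L / 8) * L * 8 := by ring
    have := mul_le_mul_of_nonneg_right hτV hL0.le
    linarith
  have hτ1 : -τ ≤ 1 / 2 := by linarith
  have hH : Differentiable ℂ (Hx (-τ)) := Hx_diff hτ1
  -- localisation of the zeros
  have locp : ∀ w : ℂ, Hx (-τ) w = 0 → |w.im - x0| ≤ 8 * V → w.re < 16 * V := by
    intro w hw hi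
    by_contra hc
    push Not at hc
    rcases le_total w.re (7 / 10) with h | h
    · exact (near w hc h (by linarith)).1 hw
    · have ha := abs_le.1 hi
      exact (far w h (by linarith) (by linarith)).1 hw
  have loc : ∀ w : ℂ, Hx (-τ) w = 0 → |w.im - x0| ≤ 8 * V → |w.re| ≤ 16 * V := by
    intro w hw hi
    rw [abs_le]
    constructor
    · have h1 := locp (-(starRingEnd ℂ w)) (by rw [Hx_refl, hw, map_zero]) (by simpa using hi)
      simp only [Complex.neg_re, Complex.conj_re] at h1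
      linarith
    · exact (locp w hw hi).le
  -- the centre
  set w1 : ℂ := ⟨20 * V, x0⟩ with hw1
  have hw1re : w1.re = 20 * V := rfl
  have hw1im : w1.im = x0 := rfl
  obtain ⟨hH0, q, hq1, hq2⟩ := near w1 (by rw [hw1re]; linarith) (by rw [hw1re]; linarith)
    (by rw [hw1im, sub_self, abs_zero]; linarith)
  have hqr : |q.re - (20 * V - τ * L)| ≤ τ * L / 100 := by
    have := (Complex.abs_re_le_norm (q - (w1 - (τ * L : ℝ)))).trans hq1
    have e : (q - (w1 - ((τ * L : ℝ) : ℂ))).re = q.re - (20 * V - τ * L) := by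
      simp only [Complex.sub_re, Complex.ofReal_re, hw1re]
    rwa [e] at this
  have hqi : |q.im - x0| ≤ τ * L / 100 := by
    have := (Complex.abs_im_le_norm (q - (w1 - (τ * L : ℝ)))).trans hq1
    have e : (q - (w1 - ((τ * L : ℝ) : ℂ))).im = q.im - x0 := by
      simp only [Complex.sub_im, Complex.ofReal_im, hw1im]; ring
    rwa [e] at this
  obtain ⟨r1, r2⟩ := abs_le.1 hqr
  have hH1 : 0 < ‖Hx (-τ) w1‖ := norm_pos_iff.2 hH0
  set M : ℝ := Real.exp ((K + 1) * (V * L)) with hMdef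
  have hM1 : 1 ≤ M := Real.one_le_exp (by positivity)
  have e2 : (2 : ℝ) ≤ Real.exp (V * L) := by have := Real.add_one_le_exp (V * L); linarith
  have hbound : ∀ z ∈ Metric.closedBall w1 (50 * V), ‖(Hx (-τ) w1)⁻¹ * Hx (-τ) z‖ ≤ M := by
    intro z hz
    rw [Metric.mem_closedBall, dist_eq_norm] at hz
    have hre : |z.re - w1.re| ≤ 50 * V := by
      have := Complex.abs_re_le_norm (z - w1)
      rw [sub_re] at this; linarith
    have him : |z.im - w1.im| ≤ 50 * V := by
      have := Complex.abs_im_le_norm (z - w1)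
      rw [sub_im] at this; linarith
    rw [hw1re] at hre
    rw [hw1im] at him
    have b1 := ubg z q (by rw [abs_le] at hre ⊢; constructor <;> linarith) him (by linarith) (by linarith)
      (by linarith)
    rw [norm_mul, norm_inv, inv_mul_le_iff₀ hH1]
    have b2 : ‖fx q‖ ≤ 2 * ‖Hx (-τ) w1‖ := by linarith
    calc ‖Hx (-τ) z‖ ≤ Real.exp (K * (V * L)) * ‖fx q‖ := b1
      _ ≤ Real.exp (K * (V * L)) * (2 * ‖Hx (-τ) w1‖) := mul_le_mul_of_nonneg_left b2 (Real.exp_pos _).le
      _ = (2 * Real.exp (K * (V * L))) * ‖Hx (-τ) w1‖ := by ring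
      _ ≤ (Real.exp (V * L) * Real.exp (K * (V * L))) * ‖Hx (-τ) w1‖ := by
          apply mul_le_mul_of_nonneg_right _ hH1.le
          exact mul_le_mul_of_nonneg_right e2 (Real.exp_pos _).le
      _ = ‖Hx (-τ) w1‖ * M := by
          rw [hMdef, ← Real.exp_add, mul_comm]; congr 2; ring
  have hj := H370.Loc.jensen_mult (f := fun z => (Hx (-τ) w1)⁻¹ * Hx (-τ) z) (c := w1) (r := 37 * V)
    (R := 50 * V) (M := M) (by positivity) (by linarith) hM1
    (fun z _ => ((hH.const_mul _).analyticAt z)) (mul_ne_zero (inv_ne_zero hH0) hH0) hbound S (by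
      intro z hz
      obtain ⟨z1, z2⟩ := hS z hz
      have z3 := loc z z1 z2
      rw [Metric.mem_closedBall, dist_eq_norm]
      have e : ‖z - w1‖ ^ 2 = (z.re - 20 * V) ^ 2 + (z.im - x0) ^ 2 := by
        rw [← Complex.normSq_eq_norm_sq, Complex.normSq_apply]
        simp only [sub_re, sub_im, hw1re, hw1im]; ring
      have h3 : ‖z - w1‖ ^ 2 ≤ (37 * V) ^ 2 := by
        rw [e]
        have a1 : (z.re - 20 * V) ^ 2 ≤ (36 * V) ^ 2 := by
          apply sq_le_sq'
          · have := (abs_le.1 z3).1; linarith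
          · have := (abs_le.1 z3).2; linarith
        have a2 : (z.im - x0) ^ 2 ≤ (8 * V) ^ 2 := by
          rw [← sq_abs (z.im - x0)]; exact pow_le_pow_left₀ (abs_nonneg _) z2 2
        nlinarith
      exact (pow_le_pow_iff_left₀ (norm_nonneg _) (by positivity) two_ne_zero).1 h3)
  simp only [mult_div _ hH hH0] at hj
  refine hj.trans ?_
  have u1 : ‖(Hx (-τ) w1)⁻¹ * Hx (-τ) w1‖ = 1 := by rw [inv_mul_cancel₀ hH0, norm_one]
  rw [u1, div_one, hMdef, Real.log_exp]
  have e3 : 50 * V / (37 * V) = 50 / 37 := by field_simp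
  rw [e3]
  have h8 : 1 / 4 ≤ Real.log (50 / 37) := by
    have h9 := Real.one_sub_inv_le_log_of_pos (show (0:ℝ) < 50 / 37 by norm_num)
    norm_num at h9
    linarith
  rw [div_le_iff₀ (by linarith)]
  have h10 : 0 ≤ 4 * (K + 1) * (V * L) := by positivity
  have h11 := mul_le_mul_of_nonneg_left h8 h10
  linarith

/-- **CNTG** -/
theorem pCNTG (hLine : S_Line) (hCone : S_Cone) (hUBF : S_UBF) (hNearV : S_NearV) (hFar : S_Far) : S_CntG :=
  cntg (pUBG hLine hCone hUBF) hNearV hFar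

end Pool.Agent.Helper28.PP54
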