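import Pool.Agent.Helper54.Pp.Stm3
import Pool.Agent.Helper27.PP54.UB
import Pool.Agent.Helper43.PP54.UBF

set_option autoImplicit false

/-!
Project PP54, round 2, package UBG: upper bound for `Hx (-τ)` on a disc on the scale `V` (first half of CNTG).
-/

open Complex MeasureTheory Set Filter Topology

namespace Pool.Agent.Helper28.PP54

open Pool.Agent.Helper54.Xm Pool.Agent.Helper54.Hf Pool.Agent.Helper54.Nt Pool.Agent.Helper54.Nm
  Pool.Agent.Helper54.Pp

/-- UBG: upper bound for `Hx (-τ)` on the scale `V`. -/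
def S_UBG : Prop := ∃ K ε0 T0 : ℝ, 1 ≤ K ∧ 0 < ε0 ∧ 1000 ≤ T0 ∧
  ∀ T τ x0 ε V : ℝ, T0 ≤ T → 0 < τ → 8 ≤ τ * Real.log T ^ 2 → τ * Real.log T / 8 ≤ V → V ≤ 1 / 1000 →
  0 < ε → ε ≤ ε0 → 3 * T / 4 ≤ x0 → x0 ≤ 5 * T / 2 → MG ε T V x0 →
  ∀ z q : ℂ, |z.re| ≤ 70 * V → |z.im - x0| ≤ 50 * V → 8 * V ≤ q.re → q.re ≤ 70 * V → |q.im - x0| ≤ 50 * V →
  ‖Hx (-τ) z‖ ≤ Real.exp (K * (V * Real.log T)) * ‖fx q‖

/-- growth between two points of the cone -/
lemma cone_path2 (hCone : S_Cone) {ε T V x0 : ℝ} (hL : 6 ≤ Real.log T) (hV : 0 < V) (hV2 : V ≤ 1 / 1000)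
    (hε : 0 < ε) (hε2 : ε ≤ 1 / 1000) (hM : MG ε T V x0) {p q : ℂ}
    (p1 : 8 * V ≤ p.re) (p2 : p.re ≤ 70 * V) (p3 : |p.im - x0| ≤ 50 * V)
    (q1 : 8 * V ≤ q.re) (q2 : q.re ≤ 70 * V) (q3 : |q.im - x0| ≤ 50 * V) :
    ‖fx q‖ ≤ ‖fx p‖ * Real.exp (Real.log T * ‖q - p‖) := by
  refine seg fx_diff ?_
  intro t ht
  obtain ⟨t0, t1⟩ := ht
  set z : ℂ := p + t * (q - p) with hz
  have zre : z.re = (1 - t) * p.re + t * q.re := by simp [hz]; ring
  have zim : z.im - x0 = (1 - t) * (p.im - x0) + t * (q.im - x0) := by simp [hz]; ring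
  have z1 : 8 * V ≤ z.re := by
    rw [zre]
    nlinarith
  have z2 : z.re ≤ 70 * V := by
    rw [zre]
    nlinarith
  have z3 : |z.im - x0| ≤ 50 * V := by
    rw [zim]
    refine (abs_add_le _ _).trans ?_
    rw [abs_mul, abs_mul, abs_of_nonneg (by linarith : (0 : ℝ) ≤ 1 - t), abs_of_nonneg t0]
    nlinarith
  obtain ⟨c1, c2⟩ := hCone ε T V x0 hV (by linarith) hM z (by linarith) (by linarith) (by linarith)
  have c3 : ‖psi fx z‖ ≤ Real.log T := by
    have e : psi fx z = (psi fx z - Real.log T / 2) + ((Real.log T / 2 : ℝ) : ℂ) := by push_cast; ring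
    rw [e]
    refine (norm_add_le _ _).trans ?_
    rw [Complex.norm_real, Real.norm_of_nonneg (by linarith)]
    have : ε * (Real.log T + z.re) ≤ 1 / 1000 * (Real.log T + 1) := by
      apply mul_le_mul hε2 (by linarith) (by linarith) (by norm_num)
    linarith
  have c4 : deriv fx z = psi fx z * fx z := by
    unfold psi
    field_simp
  rw [c4, norm_mul]
  exact mul_le_mul_of_nonneg_right c3 (norm_nonneg _)

/-- UBG -/
theorem pUBG (hLine : S_Line) (hCone : S_Cone) (hUBF : S_UBF) : S_UBG := by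
  obtain ⟨T2, hT2, ubf⟩ := hUBF
  obtain ⟨C, hC1, hright⟩ := fx_right
  refine ⟨165, 1 / 1000, max T2 (Real.exp (1000 * C)), by norm_num, by norm_num, hT2.trans (le_max_left _ _), ?_⟩
  intro T τ x0 ε V hT hτ hτL hτV hV3 hε hε2 hx1 hx2 hM
  have hTb : T2 ≤ T := (le_max_left _ _).trans hT
  have hT3 : 1000 ≤ T := hT2.trans hTb
  have hLC : 1000 * C ≤ Real.log T :=
    (Real.le_log_iff_exp_le (by linarith)).2 ((le_max_right _ _).trans hT)
  have hcone := hCone ε T V x0
  set L := Real.log T with hLdef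
  have hL1 : 1000 ≤ L := by linarith
  have hs0 : 0 < τ * L := mul_pos hτ (by linarith)
  have hV : 0 < V := by linarith
  have hcone := hcone hV (by linarith) hM
  have hτ1 : τ ≤ 1 := by
    nlinarith
  have hVL : τ * L ^ 2 ≤ 8 * (V * L) := by
    have h1 : τ * L ^ 2 = (τ * L / 8) * L * 8 := by ring
    rw [h1]
    have := mul_le_mul_of_nonneg_right hτV (by linarith : (0 : ℝ) ≤ L)
    linarith
  have hVL1 : 1 ≤ V * L := by linarith
  have hD : ε * (L + 1) ≤ L / 500 := by
    have : ε * (L + 1) ≤ 1 / 1000 * (L + 1) := mul_le_mul_of_nonneg_right hε2 (by linarith)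
    linarith
  have hD0 : 0 ≤ ε * (L + 1) := by positivity
  -- the horizontal path
  have hhor : ∀ x b : ℝ, |x - x0| ≤ 50 * V → 8 * V ≤ b → b ≤ 3 / 4 →
      ‖fx ⟨b, x⟩‖ ≤ ‖fx ⟨8 * V, x⟩‖ * Real.exp ((L / 2 + L / 500) * b) := by
    intro x b hx h1 h2
    refine (Pool.Agent.Helper43.PP54.hori fx_diff h1 (C := L / 2 + L / 500) ?_).trans ?_
    · intro z hz1 hz2
      obtain ⟨h4, h5⟩ := hcone ⟨z, x⟩ (by change V ≤ z; linarith) (hz2.trans h2)
        (by change |x - x0| ≤ 60 * z; linarith)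
      refine ⟨h4, Pool.Agent.Helper43.PP54.re_le (h5.trans (le_trans ?_ hD))⟩
      apply mul_le_mul_of_nonneg_left _ hε.le
      change L + z ≤ L + 1
      linarith
    · apply mul_le_mul_of_nonneg_left _ (norm_nonneg _)
      apply Real.exp_le_exp.2
      apply mul_le_mul_of_nonneg_left _ (by positivity)
      linarith
  -- the growth from the line `8 V`
  have low : ∀ a x u : ℝ, 0 ≤ a → a ≤ 8 * V → |x - x0| ≤ 50 * V →
      ‖fx ⟨a, x + u⟩‖ ≤ ‖fx ⟨8 * V, x⟩‖ * Real.exp ((3 / 2 * L) * |u| / 40) := by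
    intro a x u ha1 ha2 hx
    set y := x + u with hy
    set d := |y - x0| with hd
    have hu0 := abs_nonneg u
    have hdu : d ≤ 50 * V + |u| := by
      have e : y - x0 = (x - x0) + u := by rw [hy]; ring
      rw [hd, e]
      exact (abs_add_le _ _).trans (by linarith)
    have hubf : ∀ ρ : ℝ, 8 * V ≤ ρ → ρ ≤ 7 / 10 →
        ‖fx ⟨ρ, y⟩‖ ≤ ‖fx ⟨ρ, x⟩‖ * Real.exp (L * |u| / 40) := by
      intro ρ h1 h2
      have h3 := ubf T V x0 ε hTb hV (by linarith) hε hε2 hx1 hx2 hM ⟨ρ, x⟩ (by change V ≤ ρ; linarith) h2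
        (by change |x - x0| ≤ 10 * ρ; linarith) u
      have e0 : (⟨ρ, x⟩ : ℂ) + I * u = ⟨ρ, y⟩ := by apply Complex.ext <;> simp [hy]
      rwa [e0] at h3
    have hLu : 0 ≤ L * |u| := by positivity
    rcases le_or_gt d (960 * V) with hd1 | hd1
    · have h8 : ‖fx ⟨a, y⟩‖ ≤ ‖fx ⟨8 * V, y⟩‖ := by
        have h9 := (hM 3 (by linarith)).H2 a y (by rw [abs_of_nonneg ha1]; linarith) (by linarith)
        have e : V * 2 ^ 3 = 8 * V := by ring
        rwa [e] at h9
      refine h8.trans ((hubf (8 * V) le_rfl (by linarith)).trans ?_)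
      apply mul_le_mul_of_nonneg_left _ (norm_nonneg _)
      apply Real.exp_le_exp.2
      linarith
    have hdu' : 910 / 960 * d ≤ |u| := by linarith
    by_cases hex : ∃ i : ℕ, V * 2 ^ i ≤ 7 / 10 ∧ d ≤ 120 * (V * 2 ^ i)
    · classical
      obtain ⟨hi1, hi2⟩ := Nat.find_spec hex
      set i := Nat.find hex with hi
      have hmin : ∀ j < i, ¬ (V * 2 ^ j ≤ 7 / 10 ∧ d ≤ 120 * (V * 2 ^ j)) := fun j hj =>
        Nat.find_min hex hj
      have hgood := hM i (by linarith)
      set W := V * 2 ^ i with hW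
      have hW8 : 8 * V < W := by linarith
      have hi0 : i ≠ 0 := by
        intro h0
        rw [hW, h0, pow_zero, mul_one] at hW8
        linarith
      obtain ⟨j, hj⟩ := Nat.exists_eq_succ_of_ne_zero hi0
      have hWj : W = 2 * (V * 2 ^ j) := by rw [hW, hj, pow_succ]; ring
      have hWd : W ≤ d / 60 := by
        have h7 := hmin j (by omega)
        by_contra hlt
        push Not at hlt
        exact h7 ⟨by linarith, by linarith⟩
      have h8 := hgood.H2 a y (by rw [abs_of_nonneg ha1]; linarith) hi2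
      have h9 := hubf W hW8.le hi1
      have h10 := hhor x W hx hW8.le (by linarith)
      calc ‖fx ⟨a, y⟩‖ ≤ ‖fx ⟨W, y⟩‖ := h8
        _ ≤ ‖fx ⟨W, x⟩‖ * Real.exp (L * |u| / 40) := h9
        _ ≤ (‖fx ⟨8 * V, x⟩‖ * Real.exp ((L / 2 + L / 500) * W)) * Real.exp (L * |u| / 40) :=
            mul_le_mul_of_nonneg_right h10 (Real.exp_pos _).le
        _ = ‖fx ⟨8 * V, x⟩‖ * Real.exp ((L / 2 + L / 500) * W + L * |u| / 40) := by
            rw [mul_assoc, ← Real.exp_add]
        _ ≤ _ := by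
            apply mul_le_mul_of_nonneg_left _ (norm_nonneg _)
            apply Real.exp_le_exp.2
            have h11 : W ≤ |u| / 56 := by linarith
            have h12 : (L / 2 + L / 500) * W ≤ (L / 2 + L / 500) * (|u| / 56) :=
              mul_le_mul_of_nonneg_left h11 (by positivity)
            nlinarith
    · push Not at hex
      have hd42 : 42 < d := by
        obtain ⟨n, hn1, hn2⟩ := exists_nat_pow_near (x := 7 / 10 / V) (y := (2 : ℝ))
          (by rw [le_div_iff₀ hV]; linarith) (by norm_num)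
        rw [le_div_iff₀ hV] at hn1
        rw [div_lt_iff₀ hV, pow_succ] at hn2
        have h1 := hex n (by linarith)
        nlinarith
      have hu41 : 39 ≤ |u| := by linarith
      have h8 : ‖fx ⟨a, y⟩‖ ≤ ‖fx ⟨3 / 4, y⟩‖ := by
        refine fx_mono (fun z hz => ?_) (by rw [abs_of_nonneg ha1]; linarith)
        have h1 := fx_zero_re hz
        have h2 : z.re ^ 2 ≤ 1 / 4 := by
          have := sq_le_sq' (by linarith [neg_abs_le z.re, abs_nonneg z.re] : -(1 / 2) ≤ |z.re|) h1.le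
          rw [sq_abs] at this
          linarith
        nlinarith [sq_nonneg (y - z.im)]
      have h9 : ‖fx ⟨3 / 4, y⟩‖ ≤ ‖fx ⟨3 / 4, x⟩‖ * Real.exp (C * |u|) := by
        have h6 := Pool.Agent.Helper43.PP54.vert fx_diff (a := 3 / 4) (x := x) (y := y) (C := C) (by
          intro z h1 h2
          obtain ⟨h4, h5⟩ := hright ⟨3 / 4, z⟩ (by norm_num)
          refine ⟨h4, ?_⟩
          have h7 := (Complex.abs_im_le_norm _).trans h5
          rwa [Complex.sub_im, Complex.ofReal_im, sub_zero] at h7)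
        have e : y - x = u := by rw [hy]; ring
        rwa [e] at h6
      have h10 := hhor x (3 / 4) hx (by linarith) le_rfl
      calc ‖fx ⟨a, y⟩‖ ≤ ‖fx ⟨3 / 4, y⟩‖ := h8
        _ ≤ ‖fx ⟨3 / 4, x⟩‖ * Real.exp (C * |u|) := h9
        _ ≤ (‖fx ⟨8 * V, x⟩‖ * Real.exp ((L / 2 + L / 500) * (3 / 4))) * Real.exp (C * |u|) :=
            mul_le_mul_of_nonneg_right h10 (Real.exp_pos _).le
        _ = ‖fx ⟨8 * V, x⟩‖ * Real.exp ((L / 2 + L / 500) * (3 / 4) + C * |u|) := by
            rw [mul_assoc, ← Real.exp_add]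
        _ ≤ _ := by
            apply mul_le_mul_of_nonneg_left _ (norm_nonneg _)
            apply Real.exp_le_exp.2
            have h11 : C * |u| ≤ L / 1000 * |u| := mul_le_mul_of_nonneg_right (by linarith) hu0
            have h12 : L * 39 ≤ L * |u| := mul_le_mul_of_nonneg_left hu41 (by linarith)
            nlinarith
  -- the growth of the flow at nonnegative real part
  have flow : ∀ z : ℂ, 0 ≤ z.re → z.re ≤ 70 * V → |z.im - x0| ≤ 50 * V →
      ‖Hx (-τ) z‖ ≤ 2 * ‖fx ⟨max (8 * V) z.re, z.im⟩‖ * Real.exp (V * L) := by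
    intro z z0 zr zi
    have hl := (hLine τ z z hτ hτ1).1
    have hu : ∀ u : ℝ, ‖fx (z + I * u)‖ ≤ ‖fx ⟨max (8 * V) z.re, z.im⟩‖ * Real.exp ((3 / 2 * L) * |u| / 40) := by
      intro u
      have hLu : 0 ≤ L * |u| := by positivity
      rcases le_total z.re (8 * V) with h | h
      · rw [max_eq_left h]
        have e0 : z + I * u = ⟨z.re, z.im + u⟩ := by apply Complex.ext <;> simp
        rw [e0]
        exact low z.re z.im u z0 h zi
      · rw [max_eq_right h]
        refine (ubf T V x0 ε hTb hV (by linarith) hε hε2 hx1 hx2 hM z (by linarith) (by linarith)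
          (by linarith) u).trans ?_
        apply mul_le_mul_of_nonneg_left _ (norm_nonneg _)
        apply Real.exp_le_exp.2
        change L * |u| / 40 ≤ _
        linarith
    have hg := Pool.Agent.Helper27.PP54.gauss_bd (A := 0) (L := 3 / 2 * L)
      (B := ‖fx ⟨max (8 * V) z.re, z.im⟩‖) hτ hl (norm_nonneg _) (by
        intro u
        rw [norm_mul, Pool.Agent.Helper27.PP54.norm_kernel]
        refine (mul_le_mul_of_nonneg_right (hu u) (Real.exp_pos _).le).trans ?_
        rw [mul_assoc, ← Real.exp_add]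
        refine mul_le_mul_of_nonneg_left (Real.exp_le_exp.2 ?_) (norm_nonneg _)
        have e1 : (z + I * u - z).re = 0 := by simp
        have e2 : (z + I * u - z).im = u := by simp
        rw [e1, e2]
        apply le_of_eq
        ring)
    refine hg.trans ?_
    apply mul_le_mul_of_nonneg_left _ (by positivity)
    apply Real.exp_le_exp.2
    nlinarith
  -- the path
  have key : ∀ z q : ℂ, 0 ≤ z.re → z.re ≤ 70 * V → |z.im - x0| ≤ 50 * V → 8 * V ≤ q.re → q.re ≤ 70 * V →
      |q.im - x0| ≤ 50 * V → ‖Hx (-τ) z‖ ≤ Real.exp (165 * (V * L)) * ‖fx q‖ := by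
    intro z q z0 z1 z2 q1 q2 q3
    set p : ℂ := ⟨max (8 * V) z.re, z.im⟩ with hp
    have p1 : 8 * V ≤ p.re := le_max_left _ _
    have p2 : p.re ≤ 70 * V := max_le (by linarith) z1
    have p3 : |p.im - x0| ≤ 50 * V := z2
    have h1 := flow z z0 z1 z2
    have h2 := cone_path2 hCone (p := q) (q := p) (by linarith : 6 ≤ Real.log T) hV hV3 hε hε2 hM q1 q2 q3
      p1 p2 p3
    have hd : ‖p - q‖ ≤ 162 * V := by
      refine (Complex.norm_le_abs_re_add_abs_im _).trans ?_
      have a1 : |(p - q).re| ≤ 62 * V := by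
        rw [Complex.sub_re, abs_le]; constructor <;> linarith
      have a2 : |(p - q).im| ≤ 100 * V := by
        rw [Complex.sub_im]
        have e : p.im - q.im = (p.im - x0) - (q.im - x0) := by ring
        rw [e]
        exact (abs_sub _ _).trans (by linarith)
      linarith
    have h3 : ‖fx p‖ ≤ ‖fx q‖ * Real.exp (162 * (V * L)) := by
      refine h2.trans ?_
      apply mul_le_mul_of_nonneg_left _ (norm_nonneg _)
      apply Real.exp_le_exp.2
      calc L * ‖p - q‖ ≤ L * (162 * V) := mul_le_mul_of_nonneg_left hd (by linarith)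
        _ = _ := by ring
    have e2 : (2 : ℝ) ≤ Real.exp (V * L) := by have := Real.add_one_le_exp (V * L); linarith
    calc ‖Hx (-τ) z‖ ≤ 2 * ‖fx p‖ * Real.exp (V * L) := h1
      _ ≤ Real.exp (V * L) * (‖fx q‖ * Real.exp (162 * (V * L))) * Real.exp (V * L) := by
          apply mul_le_mul_of_nonneg_right _ (Real.exp_pos _).le
          exact mul_le_mul e2 h3 (norm_nonneg _) (Real.exp_pos _).le
      _ = Real.exp (V * L + 162 * (V * L) + V * L) * ‖fx q‖ := by
          rw [Real.exp_add, Real.exp_add]; ring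
      _ ≤ _ := by
          apply mul_le_mul_of_nonneg_right _ (norm_nonneg _)
          apply Real.exp_le_exp.2
          linarith
  intro z q hz1 hz2 hq1 hq2 hq3
  rcases le_total 0 z.re with h0 | h0
  · exact key z q h0 ((le_abs_self _).trans hz1) hz2 hq1 hq2 hq3
  · have h1 := key (-(starRingEnd ℂ z)) q (by simpa using h0) (by
      simp only [Complex.neg_re, Complex.conj_re]
      exact (neg_le_abs _).trans hz1) (by simpa using hz2) hq1 hq2 hq3
    rwa [Hx_refl, RCLike.norm_conj] at h1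

end Pool.Agent.Helper28.PP54
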